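import Pool.Agent.Work.MP_36bee3_al.Radical

/-!
The class of finite groups whose `2`-elements centralise `E / D`, where `U = O_5(G)`,
`D / C_G(U) = O_5(G / C_G(U))` and `E / D = O_3(G / D)`, and its closure properties.
-/

namespace Pool.Agent.Work.MP_36bee3_al

open Subgroup

/-- The odd natural numbers. -/
def odds : Submonoid ℕ where
  carrier := {n | Odd n}
  mul_mem' := fun ha hb => Odd.mul ha hb
  one_mem' := odd_one

lemma mem_odds {n : ℕ} : n ∈ odds ↔ Odd n := Iff.rfl

section Defs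

variable (G : Type*) [Group G]

/-- `O_5(G)`. -/
def sU : Subgroup G := rel (Submonoid.powers 5) ⊥

instance sU_normal : (sU G).Normal := rel_normal _ _

/-- `C_G(O_5(G))`. -/
def sC : Subgroup G := cen ⊥ (sU G)

instance sC_normal : (sC G).Normal := cen_normal _ _

/-- The preimage of `O_5(G / C)`. -/
def sD : Subgroup G := rel (Submonoid.powers 5) (sC G)

instance sD_normal : (sD G).Normal := rel_normal _ _

/-- The preimage of `O_3(G / D)`. -/
def sE : Subgroup G := rel (Submonoid.powers 3) (sD G)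

instance sE_normal : (sE G).Normal := rel_normal _ _

/-- The centraliser of `E / D`. -/
def sT : Subgroup G := cen (sD G) (sE G)

instance sT_normal : (sT G).Normal := cen_normal _ _

/-- The preimage of `O_{2'}(G / T)`. -/
def sW : Subgroup G := rel odds (sT G)

instance sW_normal : (sW G).Normal := rel_normal _ _

end Defs

variable {G : Type*} [Group G] {N : Type*} [Group N]

lemma cen_congr {D D' E E' : Subgroup G} [D.Normal] [D'.Normal] (h₁ : D = D') (h₂ : E = E') :
    cen D E = cen D' E' := by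
  subst h₁ h₂
  rfl

lemma Pw.of_le {S : Submonoid ℕ} {D E : Subgroup G} (h : E ≤ D) : Pw S D E :=
  fun e he => ⟨1, S.one_mem, by simpa using h he⟩

lemma Pw.mono {S S' : Submonoid ℕ} {D E : Subgroup G} (hS : S ≤ S') (h : Pw S D E) :
    Pw S' D E := fun e he => by
  obtain ⟨n, hn, h'⟩ := h e he
  exact ⟨n, hS hn, h'⟩

lemma powers_three_le : Submonoid.powers 3 ≤ odds := by
  rintro _ ⟨k, rfl⟩
  exact Odd.pow (by decide)

lemma powers_five_le : Submonoid.powers 5 ≤ odds := by
  rintro _ ⟨k, rfl⟩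
  exact Odd.pow (by decide)

section Comap

variable (f : N →* G) (hf : Function.Injective f) (hn : f.range.Normal)
include hf hn

lemma sU_comap : sU N = (sU G).comap f := by
  have h : (⊥ : Subgroup G).comap f = ⊥ := by
    rw [MonoidHom.comap_bot, MonoidHom.ker_eq_bot_iff]
    exact hf
  exact rel_eq_comap _ f hf hn ⊥ ⊥ (Pw.of_le h.le) (Pw.of_le h.ge)

lemma sD_comap [Finite G] : sD N = (sD G).comap f := by
  have h : (⊥ : Subgroup G).comap f = ⊥ := by
    rw [MonoidHom.comap_bot, MonoidHom.ker_eq_bot_iff]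
    exact hf
  have h1 : sC N = cen ((⊥ : Subgroup G).comap f) ((sU G).comap f) :=
    cen_congr h.symm (sU_comap f hf hn)
  refine rel_eq_comap _ f hf hn _ _ ?_ ?_
  · rw [h1]
    exact Pw.of_le (comap_cen_le f _ _)
  · rw [h1]
    exact pw_cen f hn _ _ (pw_rel _ _)

lemma sE_comap [Finite G] : sE N = (sE G).comap f :=
  rel_eq_comap _ f hf hn _ _ (Pw.of_le (sD_comap f hf hn).ge) (Pw.of_le (sD_comap f hf hn).le)

lemma sW_comap [Finite G] : sW N = (sW G).comap f := by
  have h1 : sT N = cen ((sD G).comap f) ((sE G).comap f) :=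
    cen_congr (sD_comap f hf hn) (sE_comap f hf hn)
  refine rel_eq_comap _ f hf hn _ _ ?_ ?_
  · rw [h1]
    exact Pw.of_le (comap_cen_le f _ _)
  · rw [h1]
    exact (pw_cen f hn _ _ (pw_rel _ _)).mono powers_three_le

end Comap

lemma sW_top_of_equiv [Finite G] (e : N ≃* G) (h : sW G = ⊤) : sW N = ⊤ := by
  have hr : e.toMonoidHom.range = ⊤ := MonoidHom.range_eq_top.mpr e.surjective
  rw [sW_comap e.toMonoidHom e.injective (by rw [hr]; infer_instance), h, comap_top]

lemma map_sW_le_of_isSubnormal [Finite G] {H : Subgroup G} (hH : H.IsSubnormal) :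
    (sW H).map H.subtype ≤ sW G := by
  induction hH with
  | top =>
    rw [sW_comap (⊤ : Subgroup G).subtype (subtype_injective _)
      (by rw [range_subtype]; infer_instance)]
    exact map_comap_le _ _
  | step H K hle _ hN ih =>
    have h1 : sW H = (sW K).comap (inclusion hle) :=
      sW_comap _ (inclusion_injective hle) (by rwa [inclusion_range])
    rintro _ ⟨x, hx, rfl⟩
    rw [h1] at hx
    exact ih ⟨inclusion hle x, hx, rfl⟩

lemma sW_top_of_subnormal [Finite G] {ι : Type*} (H : ι → Subgroup G)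
    (h₁ : ∀ i, (H i).IsSubnormal) (h₂ : ∀ i, sW (H i) = ⊤) (h₃ : ⨆ i, H i = ⊤) : sW G = ⊤ := by
  rw [eq_top_iff, ← h₃, iSup_le_iff]
  intro i x hx
  exact map_sW_le_of_isSubnormal (h₁ i) ⟨⟨x, hx⟩, by rw [h₂ i]; trivial, rfl⟩

/-- A subgroup containing two coprime powers of an element contains the element. -/
lemma mem_of_coprime {H : Subgroup G} {g : G} {a b : ℕ} (hab : a.Coprime b) (ha : g ^ a ∈ H)
    (hb : g ^ b ∈ H) : g ∈ H := by
  have h := Nat.gcd_eq_gcd_ab a b
  rw [hab] at h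
  have : g = (g ^ a) ^ (a.gcdA b) * (g ^ b) ^ (a.gcdB b) := by
    rw [← zpow_natCast, ← zpow_natCast, ← zpow_mul, ← zpow_mul, ← zpow_add, ← h]
    simp
  rw [this]
  exact H.mul_mem (H.zpow_mem ha _) (H.zpow_mem hb _)

lemma exists_pow_primePow [Finite G] (p : ℕ) (hp : p.Prime) (g : G) :
    ∃ m k : ℕ, p.Coprime m ∧ (g ^ m) ^ p ^ k = 1 := by
  obtain ⟨k, m, hm, h⟩ := Nat.exists_eq_pow_mul_and_not_dvd (orderOf_pos g).ne' p hp.ne_one
  refine ⟨m, k, hp.coprime_iff_not_dvd.mpr hm, ?_⟩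
  rw [← pow_mul, mul_comm, ← h, pow_orderOf_eq_one]

lemma commute_of_nilpotent {Q : Type*} [Group Q] [Finite Q] [Group.IsNilpotent Q] (x y : Q)
    (k l : ℕ) (hx : x ^ 2 ^ k = 1) (hy : y ^ 3 ^ l = 1) : Commute x y := by
  have : Fact (Nat.Prime 2) := ⟨Nat.prime_two⟩
  have : Fact (Nat.Prime 3) := ⟨Nat.prime_three⟩
  have h : ∀ (p : ℕ) (z : Q) (j : ℕ), z ^ p ^ j = 1 → IsPGroup p (zpowers z) := by
    rintro p z j hz ⟨_, i, rfl⟩
    refine ⟨j, Subtype.ext ?_⟩
    change (z ^ i) ^ p ^ j = 1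
    rw [← zpow_natCast, ← zpow_mul, mul_comm, zpow_mul, zpow_natCast, hz, one_zpow]
  obtain ⟨P, hP⟩ := (h 2 x k hx).exists_le_sylow
  obtain ⟨R, hR⟩ := (h 3 y l hy).exists_le_sylow
  exact commute_of_normal_of_disjoint (P : Subgroup Q) (R : Subgroup Q) inferInstance
    inferInstance (IsPGroup.disjoint_of_ne 2 3 (by decide) _ _ P.isPGroup' R.isPGroup') x y
    (hP (mem_zpowers x)) (hR (mem_zpowers y))

lemma mem_sT_of_sW_top (h : sW G = ⊤) {x : G} {k : ℕ} (hx : x ^ 2 ^ k = 1) : x ∈ sT G := by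
  obtain ⟨n, hn, hxn⟩ := pw_rel odds (sT G) x (by change x ∈ sW G; rw [h]; trivial)
  refine mem_of_coprime (a := n) (b := 2 ^ k) ?_ hxn (by rw [hx]; exact one_mem _)
  exact Nat.Coprime.pow_right _ (Odd.coprime_two_right hn)

/-- The closure property of Fischer classes. -/
lemma sW_top_of_fischer [Finite G] (h : sW G = ⊤) (L : Subgroup G)
    (hL : Group.IsNilpotent (L ⧸ L.normalCore.subgroupOf L)) : sW L = ⊤ := by
  rw [eq_top_iff]
  refine le_rel inferInstance fun g _ => ?_
  obtain ⟨m, k, hm, hx⟩ := exists_pow_primePow 2 Nat.prime_two g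
  refine ⟨m, Nat.coprime_two_left.mp hm, ?_⟩
  set x := g ^ m with hxdef
  have hxT : (x : G) ∈ sT G := mem_sT_of_sW_top h (k := k) (by
    rw [← coe_pow, hx, coe_one])
  set K := L.normalCore with hK
  have hle : K ≤ L := normalCore_le L
  have hr1 : K.subtype.range.Normal := by rw [range_subtype]; infer_instance
  have hr2 : (inclusion hle).range.Normal := by rw [inclusion_range]; infer_instance
  have hD1 := sD_comap K.subtype (subtype_injective _) hr1
  have hD2 := sD_comap (inclusion hle) (inclusion_injective hle) hr2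
  have hE1 := sE_comap K.subtype (subtype_injective _) hr1
  have hE2 := sE_comap (inclusion hle) (inclusion_injective hle) hr2
  -- the claim for `3`-elements of `E`
  have key : ∀ e ∈ sE L, ∀ l : ℕ, e ^ 3 ^ l = 1 → x * e * x⁻¹ * e⁻¹ ∈ sD L := by
    intro e he l hl
    set c := x * e * x⁻¹ * e⁻¹ with hc
    have hcE : c ∈ sE L := (sE L).mul_mem (Normal.conj_mem inferInstance e he x) (inv_mem he)
    have hcK : c ∈ K.subgroupOf L := by
      rw [← QuotientGroup.eq_one_iff]
      have := commute_of_nilpotent (x : L ⧸ K.subgroupOf L) (e : L ⧸ K.subgroupOf L) k l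
        (by rw [← QuotientGroup.mk_pow, hx, QuotientGroup.mk_one])
        (by rw [← QuotientGroup.mk_pow, hl, QuotientGroup.mk_one])
      simp only [hc, QuotientGroup.mk_mul, QuotientGroup.mk_inv, this.eq]
      group
    have hc2 : (c : G) ∈ sE G := by
      have h1 : (⟨c, hcK⟩ : K) ∈ sE K := by
        rw [hE2]
        exact hcE
      rw [hE1] at h1
      exact h1
    have hd1 : (x : G) * c * (x : G)⁻¹ * (c : G)⁻¹ ∈ sD G := mem_cen.mp hxT _ hc2
    have hd2 : x * c * x⁻¹ * c⁻¹ ∈ K.subgroupOf L :=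
      (K.subgroupOf L).mul_mem (Normal.conj_mem inferInstance c hcK x) (inv_mem hcK)
    have hd3 : x * c * x⁻¹ * c⁻¹ ∈ sD L := by
      have h1 : (⟨(x * c * x⁻¹ * c⁻¹ : L), hd2⟩ : K) ∈ sD K := by
        rw [hD1]
        exact hd1
      rw [hD2] at h1
      exact h1
    have hp1 : c ^ 2 ^ k ∈ sD L := by
      rw [hc, ← conj_pow_mem x e (2 ^ k) hd3, hx]
      simp
    obtain ⟨_, ⟨j, rfl⟩, hp2⟩ := pw_rel _ _ c hcE
    exact mem_of_coprime (Nat.Coprime.pow k j (by decide : Nat.Coprime 2 3)) hp1 hp2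
  change x ∈ cen (sD L) (sE L)
  rw [mem_cen]
  intro e he
  obtain ⟨m', l, hm', he'⟩ := exists_pow_primePow 3 Nat.prime_three e
  obtain ⟨_, ⟨j, rfl⟩, hp2⟩ := pw_rel _ _ e he
  let Z : Subgroup L := (centralizer {(x : L ⧸ sD L)}).comap (QuotientGroup.mk' (sD L))
  have hZ : ∀ y : L, y ∈ Z ↔ x * y * x⁻¹ * y⁻¹ ∈ sD L := by
    intro y
    rw [← QuotientGroup.eq_one_iff (N := sD L)]
    simp only [Z, mem_comap, mem_centralizer_iff, Set.mem_singleton_iff, forall_eq,
      QuotientGroup.mk'_apply, QuotientGroup.mk_mul, QuotientGroup.mk_inv]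
    rw [mul_inv_eq_one, mul_inv_eq_iff_eq_mul]
  rw [← hZ]
  refine mem_of_coprime (a := 3 ^ j) (b := m') (Nat.Coprime.pow_left j hm') ?_ ?_
  · rw [hZ]
    exact (sD L).mul_mem (Normal.conj_mem inferInstance _ hp2 x) (inv_mem hp2)
  · rw [hZ]
    exact key _ (pow_mem he _) l he'

end Pool.Agent.Work.MP_36bee3_al
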