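import Mathlib

/-!
Radical-type subgroups of a group and their behaviour under normal embeddings.
-/

namespace Pool.Agent.Work.MP_36bee3_al

open Subgroup

variable {G : Type*} [Group G] {N : Type*} [Group N]

/-- Every element of `E` has a power in `D` with exponent in `S`. -/
def Pw (S : Submonoid ℕ) (D E : Subgroup G) : Prop := ∀ e ∈ E, ∃ n ∈ S, e ^ n ∈ D

/-- The largest normal subgroup each of whose elements has a power in `D` with exponent in `S`. -/
def rel (S : Submonoid ℕ) (D : Subgroup G) : Subgroup G := sSup {E | E.Normal ∧ Pw S D E}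

/-- The centraliser of the section `E / D`. -/
def cen (D E : Subgroup G) [D.Normal] : Subgroup G :=
  (centralizer (E.map (QuotientGroup.mk' D) : Set (G ⧸ D))).comap (QuotientGroup.mk' D)

lemma Pw.sup {S : Submonoid ℕ} {D E₁ E₂ : Subgroup G} [D.Normal] [E₂.Normal]
    (h₁ : Pw S D E₁) (h₂ : Pw S D E₂) : Pw S D (E₁ ⊔ E₂) := by
  intro e he
  have he' : e ∈ ((E₁ ⊔ E₂ : Subgroup G) : Set G) := he
  rw [Subgroup.mul_normal] at he'
  obtain ⟨a, ha, b, hb, rfl⟩ := he'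
  obtain ⟨n, hn, han⟩ := h₁ a ha
  have h3 : (a ^ n)⁻¹ * (a * b) ^ n ∈ E₂ := by
    rw [← QuotientGroup.eq]
    have hb' : (b : G ⧸ E₂) = 1 := (QuotientGroup.eq_one_iff b).mpr hb
    simp [hb']
  obtain ⟨m, hm, hbm⟩ := h₂ _ h3
  refine ⟨n * m, S.mul_mem hn hm, ?_⟩
  rw [← QuotientGroup.eq_one_iff] at han hbm ⊢
  simp only [QuotientGroup.mk_pow, QuotientGroup.mk_mul, QuotientGroup.mk_inv] at han hbm ⊢
  rw [han] at hbm
  simpa [pow_mul] using hbm

lemma mem_rel {S : Submonoid ℕ} {D : Subgroup G} [D.Normal] {g : G} :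
    g ∈ rel S D ↔ ∃ E : Subgroup G, E.Normal ∧ Pw S D E ∧ g ∈ E := by
  unfold rel
  rw [Subgroup.mem_sSup_of_directedOn]
  · simp [and_assoc]
  · exact ⟨⊥, inferInstance, fun e he => ⟨1, S.one_mem, by
      rw [Subgroup.mem_bot] at he
      simp [he]⟩⟩
  · rintro E₁ ⟨n₁, h₁⟩ E₂ ⟨n₂, h₂⟩
    exact ⟨E₁ ⊔ E₂, ⟨inferInstance, h₁.sup h₂⟩, le_sup_left, le_sup_right⟩

instance rel_normal (S : Submonoid ℕ) (D : Subgroup G) [D.Normal] : (rel S D).Normal :=
  ⟨fun a ha g => by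
    obtain ⟨E, hE, hP, haE⟩ := mem_rel.mp ha
    exact mem_rel.mpr ⟨E, hE, hP, hE.conj_mem a haE g⟩⟩

lemma pw_rel (S : Submonoid ℕ) (D : Subgroup G) [D.Normal] : Pw S D (rel S D) := by
  intro e he
  obtain ⟨E, _, hP, heE⟩ := mem_rel.mp he
  exact hP e heE

lemma le_rel {S : Submonoid ℕ} {D E : Subgroup G} (hE : E.Normal) (h : Pw S D E) :
    E ≤ rel S D := le_sSup ⟨hE, h⟩

lemma self_le_rel (S : Submonoid ℕ) (D : Subgroup G) [hD : D.Normal] : D ≤ rel S D :=
  le_rel hD fun e he => ⟨1, S.one_mem, by simpa using he⟩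

lemma Pw.trans {S : Submonoid ℕ} {A B C : Subgroup G} (h₁ : Pw S B A) (h₂ : Pw S C B) :
    Pw S C A := by
  intro e he
  obtain ⟨n, hn, h3⟩ := h₁ e he
  obtain ⟨m, hm, h4⟩ := h₂ _ h3
  exact ⟨n * m, S.mul_mem hn hm, by rwa [pow_mul]⟩

lemma rel_le_rel {S : Submonoid ℕ} {D D' : Subgroup G} [D.Normal] (h : Pw S D' D) :
    rel S D ≤ rel S D' := le_rel inferInstance ((pw_rel S D).trans h)

lemma mem_cen {D E : Subgroup G} [D.Normal] {g : G} :
    g ∈ cen D E ↔ ∀ e ∈ E, g * e * g⁻¹ * e⁻¹ ∈ D := by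
  simp only [cen, mem_comap, mem_centralizer_iff, SetLike.mem_coe, mem_map]
  constructor
  · intro h e he
    have := h _ ⟨e, he, rfl⟩
    rw [← QuotientGroup.eq_one_iff]
    simp only [QuotientGroup.mk'_apply] at this
    simp [← this]
  · rintro h _ ⟨e, he, rfl⟩
    have := h e he
    rw [← QuotientGroup.eq_one_iff] at this
    simp only [QuotientGroup.mk_mul, QuotientGroup.mk_inv, QuotientGroup.mk'_apply] at this ⊢
    rw [mul_inv_eq_one, mul_inv_eq_iff_eq_mul] at this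
    exact this.symm

instance cen_normal (D E : Subgroup G) [D.Normal] [hE : E.Normal] : (cen D E).Normal := by
  have : (E.map (QuotientGroup.mk' D)).Normal := hE.map _ (QuotientGroup.mk'_surjective D)
  unfold cen
  infer_instance

/-- Conjugation in the overgroup, read through a normal embedding. -/
lemma exists_aut (f : N →* G) (hf : Function.Injective f) (hn : f.range.Normal) (g : G) :
    ∃ α : N ≃* N, ∀ x, f (α x) = g * f x * g⁻¹ := by
  let e : N ≃* f.range := MonoidHom.ofInjective hf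
  refine ⟨(e.trans (MulAut.conjNormal g)).trans e.symm, fun x => ?_⟩
  have h1 : ∀ y : f.range, f (e.symm y) = y := fun y => MonoidHom.apply_ofInjective_symm hf y
  simp only [MulEquiv.trans_apply, h1, MulAut.conjNormal_apply]
  rfl

lemma rel_comap (S : Submonoid ℕ) (f : N →* G) (hf : Function.Injective f) (hn : f.range.Normal)
    (D : Subgroup G) [D.Normal] : rel S (D.comap f) = (rel S D).comap f := by
  apply le_antisymm
  · rw [← map_le_iff_le_comap]
    refine le_rel ⟨?_⟩ ?_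
    · rintro _ ⟨x, hx, rfl⟩ g
      obtain ⟨α, hα⟩ := exists_aut f hf hn g
      refine ⟨α x, ?_, hα x⟩
      have h1 : (rel S (D.comap f)).map α.toMonoidHom ≤ rel S (D.comap f) := by
        refine le_rel ((rel_normal S _).map _ α.surjective) ?_
        rintro _ ⟨y, hy, rfl⟩
        obtain ⟨n, hn', hy'⟩ := pw_rel S _ y hy
        refine ⟨n, hn', ?_⟩
        rw [mem_comap] at hy' ⊢
        rw [← map_pow]
        change f (α (y ^ n)) ∈ D
        rw [hα]
        exact Normal.conj_mem inferInstance _ hy' g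
      exact h1 ⟨x, hx, rfl⟩
    · rintro _ ⟨x, hx, rfl⟩
      obtain ⟨n, hn', hx'⟩ := pw_rel S _ x hx
      exact ⟨n, hn', by rwa [mem_comap, map_pow] at hx'⟩
  · refine le_rel inferInstance fun e he => ?_
    obtain ⟨n, hn', h1⟩ := pw_rel S D _ he
    exact ⟨n, hn', by rwa [mem_comap, map_pow]⟩

lemma rel_eq_comap (S : Submonoid ℕ) (f : N →* G) (hf : Function.Injective f)
    (hn : f.range.Normal) (D : Subgroup G) [D.Normal] (D' : Subgroup N) [D'.Normal]
    (h₁ : Pw S D' (D.comap f)) (h₂ : Pw S (D.comap f) D') : rel S D' = (rel S D).comap f := by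
  rw [← rel_comap S f hf hn]
  exact le_antisymm (rel_le_rel h₂) (rel_le_rel h₁)

/-- Powers of an element that commutes with its commutator. -/
lemma conj_pow_eq {Q : Type*} [Group Q] (a y : Q) (h : Commute a (a * y * a⁻¹ * y⁻¹)) (k : ℕ) :
    a ^ k * y * (a ^ k)⁻¹ * y⁻¹ = (a * y * a⁻¹ * y⁻¹) ^ k := by
  induction k with
  | zero => simp
  | succ k ih =>
    set c := a * y * a⁻¹ * y⁻¹ with hc
    have h1 : a ^ k * y * (a ^ k)⁻¹ = c ^ k * y := by rw [← ih]; group
    have h2 : a * y * a⁻¹ = c * y := by rw [hc]; group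
    have h3 : a * c ^ k * a⁻¹ = c ^ k := by rw [(h.pow_right k).eq]; group
    calc a ^ (k + 1) * y * (a ^ (k + 1))⁻¹ * y⁻¹
        = a * (a ^ k * y * (a ^ k)⁻¹) * a⁻¹ * y⁻¹ := by rw [pow_succ']; group
      _ = (a * c ^ k * a⁻¹) * (a * y * a⁻¹) * y⁻¹ := by rw [h1]; group
      _ = c ^ (k + 1) := by rw [h3, h2, pow_succ]; group

/-- The same, modulo a normal subgroup. -/
lemma conj_pow_mem {D : Subgroup G} [D.Normal] (a y : G) (k : ℕ)
    (h : a * (a * y * a⁻¹ * y⁻¹) * a⁻¹ * (a * y * a⁻¹ * y⁻¹)⁻¹ ∈ D) :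
    a ^ k * y * (a ^ k)⁻¹ * y⁻¹ ∈ D ↔ (a * y * a⁻¹ * y⁻¹) ^ k ∈ D := by
  rw [← QuotientGroup.eq_one_iff] at h
  rw [← QuotientGroup.eq_one_iff, ← QuotientGroup.eq_one_iff]
  simp only [QuotientGroup.mk_pow, QuotientGroup.mk_mul, QuotientGroup.mk_inv] at h ⊢
  rw [conj_pow_eq]
  rw [mul_inv_eq_one, mul_inv_eq_iff_eq_mul] at h
  exact h

/-- A uniform exponent for a finite group. -/
lemma Pw.uniform [Finite G] {S : Submonoid ℕ} {D E : Subgroup G} (h : Pw S D E) :
    ∃ n ∈ S, ∀ e ∈ E, e ^ n ∈ D := by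
  classical
  have := Fintype.ofFinite E
  choose n hn hn' using fun e : E => h e.1 e.2
  refine ⟨∏ e : E, n e, S.prod_mem fun e _ => hn e, fun e he => ?_⟩
  obtain ⟨k, hk⟩ := Finset.dvd_prod_of_mem n (Finset.mem_univ (⟨e, he⟩ : E))
  rw [hk, pow_mul]
  exact D.pow_mem (hn' ⟨e, he⟩) k

lemma comap_cen_le (f : N →* G) (D E : Subgroup G) [D.Normal] :
    (cen D E).comap f ≤ cen (D.comap f) (E.comap f) := by
  intro x hx
  rw [mem_comap, mem_cen] at hx
  rw [mem_cen]
  intro e he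
  simpa [mem_comap] using hx _ he

lemma pw_cen [Finite G] {S : Submonoid ℕ} (f : N →* G) (hn : f.range.Normal)
    (D E : Subgroup G) [D.Normal] [hE : E.Normal] (h : Pw S D E) :
    Pw S ((cen D E).comap f) (cen (D.comap f) (E.comap f)) := by
  obtain ⟨n, hnS, hn'⟩ := h.uniform
  intro x hx
  refine ⟨n, hnS, ?_⟩
  rw [mem_comap, map_pow, mem_cen]
  intro e he
  have hc1 : f x * e * (f x)⁻¹ * e⁻¹ ∈ E := E.mul_mem (hE.conj_mem e he _) (E.inv_mem he)
  have hc2 : f x * e * (f x)⁻¹ * e⁻¹ ∈ f.range := by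
    have : f x * e * (f x)⁻¹ * e⁻¹ = f x * (e * (f x)⁻¹ * e⁻¹) := by group
    rw [this]
    exact f.range.mul_mem ⟨x, rfl⟩ (hn.conj_mem _ (f.range.inv_mem ⟨x, rfl⟩) e)
  obtain ⟨c, hc⟩ := hc2
  rw [conj_pow_mem]
  · exact hn' _ hc1
  · rw [mem_cen] at hx
    have := hx c (by rw [mem_comap, hc]; exact hc1)
    rw [mem_comap] at this
    rw [← hc]
    simpa using this

end Pool.Agent.Work.MP_36bee3_al
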